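import Mathlib
import Pool.Agent.H21.UE.Defs

/-!
# Module BAS of MP_c80192_nt (helper34)
-/

open Polynomial NumberField

namespace Pool.Agent.H21.UE

universe u

namespace BASAux

lemma minpoly_pow_dvd {L : Type*} [Field L] [NumberField L] (ξ : L) (j : ℕ) :
    ∀ P : ℚ[X], P ≠ 0 → (X - C ξ) ^ j ∣ P.map (algebraMap ℚ L) → (minpoly ℚ ξ) ^ j ∣ P := by
  induction j with
  | zero => intro P _ _; simp
  | succ j ih =>
    intro P hP hd
    have hint : IsIntegral ℚ ξ := Algebra.IsIntegral.isIntegral ξ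
    have hmin0 : minpoly ℚ ξ ≠ 0 := minpoly.ne_zero hint
    have hroot : aeval ξ P = 0 := by
      have : (X - C ξ) ∣ P.map (algebraMap ℚ L) := (dvd_pow_self _ (Nat.succ_ne_zero j)).trans hd
      rw [dvd_iff_isRoot, IsRoot.def, eval_map_algebraMap] at this
      exact this
    obtain ⟨Q, rfl⟩ := minpoly.dvd ℚ ξ hroot
    have hQ0 : Q ≠ 0 := right_ne_zero_of_mul hP
    have hmm : (minpoly ℚ ξ).map (algebraMap ℚ L) ≠ 0 :=
      (Polynomial.map_ne_zero_iff (algebraMap ℚ L).injective).2 hmin0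
    have hQm : Q.map (algebraMap ℚ L) ≠ 0 :=
      (Polynomial.map_ne_zero_iff (algebraMap ℚ L).injective).2 hQ0
    have hsep : ((minpoly ℚ ξ).map (algebraMap ℚ L)).Separable :=
      ((minpoly.irreducible hint).separable).map
    have h1 := rootMultiplicity_le_one_of_separable hsep ξ
    rw [Polynomial.map_mul] at hd
    have hprod : (minpoly ℚ ξ).map (algebraMap ℚ L) * Q.map (algebraMap ℚ L) ≠ 0 :=
      mul_ne_zero hmm hQm
    have h2 := (le_rootMultiplicity_iff hprod).2 hd
    rw [rootMultiplicity_mul hprod] at h2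
    have h3 : j ≤ rootMultiplicity ξ (Q.map (algebraMap ℚ L)) := by omega
    have h4 := ih Q hQ0 ((le_rootMultiplicity_iff hQm).1 h3)
    rw [pow_succ']
    exact mul_dvd_mul_left _ h4

lemma isPrimitive_pow {f : ℤ[X]} (hf : f.IsPrimitive) (j : ℕ) : (f ^ j).IsPrimitive := by
  induction j with
  | zero => simp
  | succ j ih => rw [pow_succ]; exact ih.mul hf

lemma exists_prim {L : Type*} [Field L] [NumberField L] (ξ : L) :
    ∃ f : ℤ[X], f.IsPrimitive ∧ f ≠ 0 ∧ aeval ξ f = 0 ∧
      Associated (f.map (Int.castRingHom ℚ)) (minpoly ℚ ξ) := by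
  have hint : IsIntegral ℚ ξ := Algebra.IsIntegral.isIntegral ξ
  have hmin0 : minpoly ℚ ξ ≠ 0 := minpoly.ne_zero hint
  obtain ⟨b, hb, hbe⟩ := IsLocalization.integerNormalization_spec (nonZeroDivisors ℤ) (minpoly ℚ ξ)
  set g := IsLocalization.integerNormalization (nonZeroDivisors ℤ) (minpoly ℚ ξ) with hg
  have hb0 : b ≠ 0 := nonZeroDivisors.ne_zero hb
  have hg0 : g ≠ 0 := by
    intro h
    rw [h, Polynomial.map_zero] at hbe
    rcases smul_eq_zero.1 hbe.symm with h' | h'
    · exact hb0 h'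
    · exact hmin0 h'
  have hc0 : g.content ≠ 0 := by rwa [Ne, content_eq_zero_iff]
  have hgp : g = C g.content * g.primPart := g.eq_C_content_mul_primPart
  have hgp0 : g.primPart ≠ 0 := g.primPart_ne_zero
  have hassoc : Associated (g.primPart.map (Int.castRingHom ℚ)) (minpoly ℚ ξ) := by
    have h1 : (b : ℚ) • minpoly ℚ ξ = C (g.content : ℚ) * g.primPart.map (Int.castRingHom ℚ) := by
      have h2 := congrArg (Polynomial.map (algebraMap ℤ ℚ)) hgp
      rw [hbe, Polynomial.map_mul, Polynomial.map_C] at h2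
      have h3 : (b : ℚ) • minpoly ℚ ξ = b • minpoly ℚ ξ := by
        rw [Int.cast_smul_eq_zsmul]
      rw [h3, h2]
      rfl
    have hbu : IsUnit (C (b : ℚ)) := isUnit_C.2 (isUnit_iff_ne_zero.2 (by exact_mod_cast hb0))
    have hcu : IsUnit (C (g.content : ℚ)) :=
      isUnit_C.2 (isUnit_iff_ne_zero.2 (by exact_mod_cast hc0))
    rw [smul_eq_C_mul] at h1
    have h4 : Associated (C (b : ℚ) * minpoly ℚ ξ) (minpoly ℚ ξ) :=
      associated_unit_mul_left _ _ hbu
    have h5 : Associated (C (g.content : ℚ) * g.primPart.map (Int.castRingHom ℚ))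
      (g.primPart.map (Int.castRingHom ℚ)) := associated_unit_mul_left _ _ hcu
    exact h5.symm.trans (h1 ▸ h4)
  refine ⟨g.primPart, g.isPrimitive_primPart, hgp0, ?_, hassoc⟩
  have h6 : aeval ξ (g.primPart.map (Int.castRingHom ℚ)) = 0 := by
    obtain ⟨r, hr⟩ := hassoc.dvd'
    rw [hr, map_mul, minpoly.aeval, zero_mul]
  have h7 : aeval ξ (g.primPart.map (algebraMap ℤ ℚ)) = aeval ξ g.primPart :=
    aeval_map_algebraMap ℚ ξ g.primPart
  exact h7.symm.trans h6

end BASAux

open BASAux in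
theorem BAS : T_BAS.{u} := by
  intro L _ _ ξ p j T hp hj hd hT hsum
  obtain ⟨f, hfp, hf0, hfξ, hfa⟩ := exists_prim ξ
  have hpQ0 : p.map (Int.castRingHom ℚ) ≠ 0 :=
    (Polynomial.map_ne_zero_iff (Int.cast_injective)).2 hp
  have hd' : (X - C ξ) ^ j ∣ (p.map (Int.castRingHom ℚ)).map (algebraMap ℚ L) := by
    rw [Polynomial.map_map]
    have h0 : (algebraMap ℚ L).comp (Int.castRingHom ℚ) = Int.castRingHom L := RingHom.ext_int _ _
    rw [h0]
    exact hd
  have h1 : (minpoly ℚ ξ) ^ j ∣ p.map (Int.castRingHom ℚ) := minpoly_pow_dvd ξ j _ hpQ0 hd'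
  have h2 : f ^ j ∣ p := by
    rw [IsPrimitive.Int.dvd_iff_map_cast_dvd_map_cast _ _ (isPrimitive_pow hfp j),
      Polynomial.map_pow]
    exact (hfa.pow_pow.dvd).trans h1
  obtain ⟨g, rfl⟩ := h2
  have hg0 : g ≠ 0 := right_ne_zero_of_mul hp
  have hMg := one_le_mahlerMeasure_of_ne_zero hg0
  have hMf := one_le_mahlerMeasure_of_ne_zero hf0
  set Mf := (f.map (Int.castRingHom ℂ)).mahlerMeasure with hMfdef
  have hMp : ((f ^ j * g).map (Int.castRingHom ℂ)).mahlerMeasure ≤ T ^ j := by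
    refine le_trans (mahlerMeasure_le_sum_norm_coeff _) ?_
    refine le_trans (le_of_eq ?_) hsum
    rw [Polynomial.sum_def, support_map_of_injective _ Int.cast_injective]
    refine Finset.sum_congr rfl fun i _ => ?_
    rw [coeff_map]
    simp
  have hMmul : ((f ^ j * g).map (Int.castRingHom ℂ)).mahlerMeasure =
      Mf ^ j * (g.map (Int.castRingHom ℂ)).mahlerMeasure := by
    rw [Polynomial.map_mul, mahlerMeasure_mul, Polynomial.map_pow]
    congr 1
    clear hMp hsum h1 hd hd' hpQ0 hp hj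
    induction j with
    | zero => simp
    | succ j ih => rw [pow_succ, mahlerMeasure_mul, ih, pow_succ]
  have hMf0 : 0 ≤ Mf := zero_le_one.trans hMf
  have hMT : Mf ≤ T := by
    have h3 : Mf ^ j ≤ T ^ j := by
      calc Mf ^ j = Mf ^ j * 1 := (mul_one _).symm
        _ ≤ Mf ^ j * (g.map (Int.castRingHom ℂ)).mahlerMeasure :=
            mul_le_mul_of_nonneg_left hMg (pow_nonneg hMf0 j)
        _ ≤ T ^ j := hMmul ▸ hMp
    exact (pow_le_pow_iff_left₀ hMf0 hT (by omega)).1 h3
  have hlead : (f.map (Int.castRingHom ℂ)).leadingCoeff = (f.leadingCoeff : ℂ) := by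
    rw [leadingCoeff_map_of_injective Int.cast_injective]
    rfl
  refine ⟨f.leadingCoeff, leadingCoeff_ne_zero.2 hf0, ?_, ?_, ?_⟩
  · refine le_trans ?_ hMT
    have h4 := leadingCoeff_le_mahlerMeasure (f.map (Int.castRingHom ℂ))
    rw [hlead] at h4
    simpa using h4
  · have h5 := isIntegral_leadingCoeff_smul f ξ (R := ℤ) hfξ
    rwa [zsmul_eq_mul] at h5
  · intro φ
    refine le_trans ?_ hMT
    rw [map_mul, norm_mul, map_intCast]
    have hroot : φ ξ ∈ (f.map (Int.castRingHom ℂ)).roots := by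
      rw [mem_roots ((Polynomial.map_ne_zero_iff (Int.cast_injective)).2 hf0), IsRoot.def,
        eval_map]
      have h6 : eval₂ (Int.castRingHom ℂ) (φ ξ) f = φ (eval₂ (Int.castRingHom L) ξ f) := by
        rw [hom_eval₂]
        congr 1
        exact RingHom.ext_int _ _
      rw [h6]
      have h7 : eval₂ (Int.castRingHom L) ξ f = aeval ξ f := rfl
      rw [h7, hfξ, map_zero]
    rw [hMfdef, mahlerMeasure_eq_leadingCoeff_mul_prod_roots, hlead]
    refine mul_le_mul_of_nonneg_left ?_ (norm_nonneg _)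
    obtain ⟨s, hs⟩ := Multiset.exists_cons_of_mem hroot
    rw [hs, Multiset.map_cons, Multiset.prod_cons]
    have h8 : 1 ≤ (s.map (fun a ↦ max 1 ‖a‖)).prod := by
      refine Multiset.one_le_prod ?_
      intro a ha
      obtain ⟨b, _, rfl⟩ := Multiset.mem_map.1 ha
      exact le_max_left _ _
    calc ‖φ ξ‖ ≤ max 1 ‖φ ξ‖ * 1 := by rw [mul_one]; exact le_max_right _ _
      _ ≤ _ := mul_le_mul_of_nonneg_left h8 (zero_le_one.trans (le_max_left _ _))

end Pool.Agent.H21.UE

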