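import Mathlib
import Pool.Agent.H21.UE.Defs

/-!
# Module IF of MP_c80192_nt (helper34)
-/

open NumberField Filter Topology

namespace Pool.Agent.H21.UE

universe u

namespace IFAux

/-- simultaneous approximation: infinitely many powers have all their real parts large -/
lemma exists_pow_re {ι : Type*} [Finite ι] (z : ι → ℂ) (hz : ∀ i, z i ≠ 0) (N : ℕ) :
    ∃ k, N ≤ k ∧ ∀ i, ‖z i‖ ^ k / 2 ≤ (z i ^ k).re := by
  classical
  have hn : ∀ i, (‖z i‖ : ℂ) ≠ 0 := fun i => by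
    exact_mod_cast (norm_ne_zero_iff.2 (hz i))
  let x : ι → Circle := fun i => ⟨z i / ‖z i‖, by
    show z i / ‖z i‖ ∈ Metric.sphere (0 : ℂ) 1
    rw [mem_sphere_zero_iff_norm, norm_div, Complex.norm_real, norm_norm,
      div_self (norm_ne_zero_iff.2 (hz i))]⟩
  have hx : ∀ i, ((x i : Circle) : ℂ) = z i / ‖z i‖ := fun i => rfl
  have hcl := mapClusterPt_one_atTop_pow x
  have hU : {y : ι → Circle | ∀ i, (1 / 2 : ℝ) < ((y i : Circle) : ℂ).re} ∈ 𝓝 (1 : ι → Circle) := by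
    have : {y : ι → Circle | ∀ i, (1 / 2 : ℝ) < ((y i : Circle) : ℂ).re} =
        ⋂ i, {y : ι → Circle | (1 / 2 : ℝ) < ((y i : Circle) : ℂ).re} := by
      ext y; simp
    rw [this, Filter.iInter_mem]
    intro i
    refine (isOpen_lt continuous_const ?_).mem_nhds ?_
    · exact Complex.continuous_re.comp (continuous_subtype_val.comp (continuous_apply i))
    · show (1 / 2 : ℝ) < (((1 : ι → Circle) i : Circle) : ℂ).re
      simp only [Pi.one_apply, Circle.coe_one, Complex.one_re]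
      norm_num
  have hfr := hcl.frequently hU
  obtain ⟨k, hk1, hk2⟩ := (frequently_atTop.1 hfr) N
  refine ⟨k, hk1, fun i => ?_⟩
  have h1 := hk2 i
  have h2 : z i = (‖z i‖ : ℂ) * ((x i : Circle) : ℂ) := by
    rw [hx, mul_div_cancel₀ _ (hn i)]
  have h3 : z i ^ k = ((‖z i‖ ^ k : ℝ) : ℂ) * (((x ^ k) i : Circle) : ℂ) := by
    rw [Pi.pow_apply, Circle.coe_pow, Complex.ofReal_pow, ← mul_pow, ← h2]
  rw [h3, Complex.re_ofReal_mul]
  have h4 : (0 : ℝ) ≤ ‖z i‖ ^ k := pow_nonneg (norm_nonneg _) _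
  have h1' : (1 / 2 : ℝ) < (((x ^ k) i : Circle) : ℂ).re := h1
  nlinarith

/-- a unit with a conjugate of absolute value `> 1` -/
lemma exists_unit_gt {F : Type*} [Field F] [NumberField F] (h2 : 2 ≤ Module.finrank ℚ F)
    (h : ¬ (Module.finrank ℚ F = 2 ∧ ∀ v : InfinitePlace F, v.IsComplex)) :
    ∃ (u : (𝓞 F)ˣ) (φ : F →+* ℂ), 1 < ‖φ (u : F)‖ := by
  classical
  have hne : Nonempty (InfinitePlace F) := inferInstance
  obtain ⟨w₁⟩ := hne
  obtain ⟨u, hu⟩ := Units.dirichletUnitTheorem.exists_unit F w₁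
  have hex : ∃ w : InfinitePlace F, w ≠ w₁ := by
    by_contra hcon
    push Not at hcon
    have hsum := InfinitePlace.sum_mult_eq (K := F)
    have huniv : (Finset.univ : Finset (InfinitePlace F)) = {w₁} := by
      ext w; simp [hcon w]
    rw [huniv, Finset.sum_singleton] at hsum
    rcases InfinitePlace.isReal_or_isComplex w₁ with hr | hc
    · rw [hr.mult_eq_one] at hsum
      omega
    · rw [hc.mult_eq_two] at hsum
      refine h ⟨hsum.symm, fun v => ?_⟩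
      rw [hcon v]
      exact hc
  obtain ⟨w₂, hw₂⟩ := hex
  have hsum := Units.sum_mult_mul_log u
  have hlog : 0 < Real.log (w₁ (u : F)) := by
    by_contra hcon
    push Not at hcon
    have hlt : ∑ w : InfinitePlace F, (w.mult : ℝ) * Real.log (w (u : F)) < 0 := by
      refine lt_of_lt_of_eq (Finset.sum_lt_sum (g := fun _ => (0 : ℝ)) ?_ ?_) (by simp)
      · intro w _
        by_cases hw : w = w₁
        · rw [hw]; exact mul_nonpos_of_nonneg_of_nonpos (Nat.cast_nonneg _) hcon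
        · exact mul_nonpos_of_nonneg_of_nonpos (Nat.cast_nonneg _) (hu w hw).le
      · exact ⟨w₂, Finset.mem_univ _, mul_neg_of_pos_of_neg
          (Nat.cast_pos.2 InfinitePlace.mult_pos) (hu w₂ hw₂)⟩
    linarith
  refine ⟨u, w₁.embedding, ?_⟩
  rw [InfinitePlace.norm_embedding_eq]
  have hpos : 0 < w₁ (u : F) := Units.pos_at_place u w₁
  exact (Real.log_pos_iff hpos.le).1 hlog

/-- the sum of the conjugates of an algebraic integer of `F` in `K` is its trace -/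
lemma sum_conj {K F : Type*} [Field K] [NumberField K] [Field F] [NumberField F]
    (hs : ∀ x : F, ((minpoly ℚ x).map (algebraMap ℚ K)).Splits) (y : F) :
    ∑ σ : F →ₐ[ℚ] K, σ y = algebraMap ℚ K (Algebra.trace ℚ F y) := by
  classical
  obtain ⟨τ⟩ : Nonempty (K →ₐ[ℚ] ℂ) := by
    have : Fintype.card (K →ₐ[ℚ] ℂ) = Module.finrank ℚ K := AlgHom.card ℚ K ℂ
    have hpos : 0 < Module.finrank ℚ K := Module.finrank_pos
    rw [← this] at hpos
    exact Fintype.card_pos_iff.1 hpos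
  have hinj : Function.Injective (fun σ : F →ₐ[ℚ] K => τ.comp σ) := by
    intro σ σ' hσ
    ext x
    have := DFunLike.congr_fun hσ x
    exact τ.injective this
  have hcard : Fintype.card (F →ₐ[ℚ] K) = Fintype.card (F →ₐ[ℚ] ℂ) := by
    rw [AlgHom.card ℚ F ℂ, AlgHom.card_of_splits ℚ F K hs]
  have hbij : Function.Bijective (fun σ : F →ₐ[ℚ] K => τ.comp σ) :=
    (Fintype.bijective_iff_injective_and_card _).2 ⟨hinj, hcard⟩
  refine τ.injective ?_
  show τ (∑ σ : F →ₐ[ℚ] K, σ y) = τ (algebraMap ℚ K (Algebra.trace ℚ F y))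
  rw [map_sum]
  have h1 : τ (algebraMap ℚ K (Algebra.trace ℚ F y)) = algebraMap ℚ ℂ (Algebra.trace ℚ F y) :=
    τ.commutes _
  rw [h1, trace_eq_sum_embeddings ℂ]
  exact Fintype.sum_bijective _ hbij _ _ (fun σ => rfl)

end IFAux

open IFAux in
theorem IF : T_IF.{u} := by
  intro K _ _ m F hF
  classical
  obtain ⟨hd2, hdm, hnq, hspl⟩ := hF
  have hspl' : ∀ x : F, ((minpoly ℚ x).map (algebraMap ℚ K)).Splits := by
    intro x
    have h1 := hspl x x.2
    rwa [← IntermediateField.minpoly_eq] at h1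
  obtain ⟨u, φ, hφ⟩ := exists_unit_gt hd2 hnq
  set M : ℝ := ‖φ (u : F)‖ with hM
  -- enough: arbitrarily large elements
  refine Set.infinite_of_forall_exists_gt fun B => ?_
  obtain ⟨N, hN⟩ := pow_unbounded_of_one_lt (2 * ((B : ℝ) + 1)) hφ
  obtain ⟨k, hkN, hk⟩ := exists_pow_re (fun σ : F →+* ℂ => σ (u : F))
    (fun σ => (map_ne_zero σ).2 (by exact_mod_cast Units.coe_ne_zero u)) N
  -- the trace
  set y : F := (u : F) ^ k with hy
  have hyint : IsIntegral ℤ y := by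
    rw [hy]; exact (RingOfIntegers.isIntegral_coe (u : 𝓞 F)).pow k
  obtain ⟨a, ha⟩ : ∃ a : ℤ, (a : ℚ) = Algebra.trace ℚ F y := by
    have h1 : IsIntegral ℤ (Algebra.trace ℚ F y) := Algebra.isIntegral_trace hyint
    obtain ⟨a, ha⟩ := (IsIntegrallyClosed.isIntegral_iff (R := ℤ) (K := ℚ)).1 h1
    exact ⟨a, ha⟩
  have hareal : (B : ℝ) + 1 < (a : ℝ) := by
    have h1 : ((a : ℝ) : ℂ) = ∑ σ : F →ₐ[ℚ] ℂ, σ y := by
      rw [← trace_eq_sum_embeddings ℂ, ← ha]
      simp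
    have h2 : (a : ℝ) = ∑ σ : F →ₐ[ℚ] ℂ, (σ y).re := by
      have := congrArg Complex.re h1
      rwa [Complex.ofReal_re, Complex.re_sum] at this
    have h3 : ∀ σ : F →ₐ[ℚ] ℂ, 0 ≤ (σ y).re := by
      intro σ
      have h4 := hk (σ : F →+* ℂ)
      rw [hy, map_pow]
      refine le_trans ?_ h4
      positivity
    have h5 : M ^ k / 2 ≤ ∑ σ : F →ₐ[ℚ] ℂ, (σ y).re := by
      have h6 := hk φ
      have h7 : (φ.toRatAlgHom y).re ≤ ∑ σ : F →ₐ[ℚ] ℂ, (σ y).re :=
        Finset.single_le_sum (f := fun σ : F →ₐ[ℚ] ℂ => (σ y).re) (fun σ _ => h3 σ)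
          (Finset.mem_univ φ.toRatAlgHom)
      refine le_trans ?_ h7
      have h8 : φ.toRatAlgHom y = φ (u : F) ^ k := by
        rw [hy, map_pow]; rfl
      rw [h8]
      exact h6
    have h9 : M ^ N ≤ M ^ k := pow_le_pow_right₀ hφ.le hkN
    rw [h2]
    linarith
  have hpos : (B : ℤ) + 1 < a := by exact_mod_cast hareal
  -- the representation
  obtain ⟨b, rfl⟩ : ∃ b : ℕ, a = (b : ℤ) := ⟨a.toNat, by omega⟩
  have hcard : Fintype.card (F →ₐ[ℚ] K) = Module.finrank ℚ F := AlgHom.card_of_splits ℚ F K hspl'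
  set d := Module.finrank ℚ F with hd
  have hcard2 : Fintype.card ((F →ₐ[ℚ] K) ⊕ Fin (m - d)) = m := by
    rw [Fintype.card_sum, hcard, Fintype.card_fin]; omega
  let e : Fin m ≃ (F →ₐ[ℚ] K) ⊕ Fin (m - d) := (Fintype.equivFinOfCardEq hcard2).symm
  let mp : (F →ₐ[ℚ] K) → (𝓞 F →+* 𝓞 K) := fun σ => RingOfIntegers.mapRingHom σ
  let w : (F →ₐ[ℚ] K) ⊕ Fin (m - d) → (𝓞 K)ˣ :=
    Sum.elim (fun σ => Units.map (mp σ : 𝓞 F →* 𝓞 K) (u ^ k)) (fun _ => 1)
  refine ⟨b + (m - d), ⟨by omega, fun i => w (e i), ?_⟩, by omega⟩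
  have h1 : ∑ i : Fin m, ((w (e i) : (𝓞 K)ˣ) : 𝓞 K) = ∑ s, ((w s : (𝓞 K)ˣ) : 𝓞 K) :=
    e.sum_comp (fun s => ((w s : (𝓞 K)ˣ) : 𝓞 K))
  rw [h1, Fintype.sum_sum_type]
  have h2 : ∑ σ : F →ₐ[ℚ] K, ((w (Sum.inl σ) : (𝓞 K)ˣ) : 𝓞 K) = (b : 𝓞 K) := by
    apply RingOfIntegers.coe_injective
    rw [map_sum]
    have h3 := sum_conj (K := K) hspl' y
    rw [← ha] at h3
    calc ∑ σ : F →ₐ[ℚ] K, algebraMap (𝓞 K) K ((w (Sum.inl σ) : (𝓞 K)ˣ) : 𝓞 K)
        = ∑ σ : F →ₐ[ℚ] K, σ y := by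
          refine Finset.sum_congr rfl fun σ _ => ?_
          rw [hy]
          simp only [w, Sum.elim_inl, Units.coe_map, Units.val_pow_eq_pow_val]
          simp only [MonoidHom.coe_coe, map_pow]
          rfl
      _ = _ := by rw [h3]; simp
  have h4 : ∑ i : Fin (m - d), ((w (Sum.inr i) : (𝓞 K)ˣ) : 𝓞 K) = ((m - d : ℕ) : 𝓞 K) := by
    simp [w]
  rw [h2, h4]
  push_cast
  ring

end Pool.Agent.H21.UE

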